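import Pool.Agent.Helper321.VH.Main2

set_option autoImplicit false

namespace Pool.Agent.Results.MP_38b588_al.LocallyRich

universe u v

/-- `H` is an infinite group satisfying at least one of the following:
(a) `H` has an infinite normal subgroup that is solvable;
(b) `H` has an infinite normal subgroup `N` that is an FC-group (every conjugacy class of `N`
    is finite);
(c) `H` carries a Hausdorff group topology that is not discrete;
(d) `H` is residually finite;
(e) `H` is linear over a field, of some finite degree `m`;
(f) `H` is equationally Noetherian in one variable, with constants from `H`: every system `S` of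
    one-variable equations over `H` (words whose letters are the variable `none` and the constants
    `some a`) has the same solutions as some finite subsystem `T`;
(g) `H` is locally soluble: every finitely generated subgroup is solvable;
(h) `H` is locally finite and has an infinite normal subgroup that is locally soluble. -/
def Rich (H : Type u) [Group H] : Prop :=
  Infinite H ∧
    ((∃ N : Subgroup H, N.Normal ∧ Infinite N ∧ Group.IsSolvable N) ∨
     (∃ N : Subgroup H, N.Normal ∧ Infinite N ∧
        ∀ x : N, (Set.range fun y : N => y * x * y⁻¹).Finite) ∨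
     (∃ t : TopologicalSpace H, @IsTopologicalGroup H t _ ∧ @T2Space H t ∧
        ¬ @DiscreteTopology H t) ∨
     (∀ x : H, x ≠ 1 → ∃ N : Subgroup H, N.Normal ∧ N.FiniteIndex ∧ x ∉ N) ∨
     (∃ (F : Type v) (_ : Field F) (m : ℕ) (ρ : H →* Matrix.GeneralLinearGroup (Fin m) F),
        Function.Injective ρ) ∨
     (∀ S : Set (FreeGroup (Option H)), ∃ T : Set (FreeGroup (Option H)), T ⊆ S ∧ T.Finite ∧
        ∀ x : H, (∀ v ∈ T, FreeGroup.lift (fun o : Option H => o.elim x id) v = 1) →
          ∀ v ∈ S, FreeGroup.lift (fun o : Option H => o.elim x id) v = 1) ∨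
     (∀ S : Set H, S.Finite → Group.IsSolvable (Subgroup.closure S)) ∨
     ((∀ S : Set H, S.Finite → Finite (Subgroup.closure S)) ∧
        ∃ N : Subgroup H, N.Normal ∧ Infinite N ∧
          ∀ S : Set H, S.Finite → S ⊆ N → Group.IsSolvable (Subgroup.closure S)))

/-- For every word `w` and every group `G` in which each finite subset lies in a rich subgroup,
`G` belongs to the class `V^#` of `w` if and only if `w = 1` is a law of `G`. -/
theorem result (n : ℕ) (w : FreeGroup (Fin n)) (G : Type u) [Group G]
    (hG : ∀ S : Set G, S.Finite → ∃ H : Subgroup G, S ⊆ (H : Set G) ∧ Rich.{u, v} H) :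
    (∀ X : Fin n → Set G, (∀ i, (X i).Infinite) →
        ∃ x : Fin n → G, (∀ i, x i ∈ X i) ∧ FreeGroup.lift x w = 1) ↔
      ∀ x : Fin n → G, FreeGroup.lift x w = 1 := by
  constructor
  · intro hs
    exact Pool.Agent.Helper321.VH.main2 w hs hG
  · intro h X hX
    choose x hx using fun i => (hX i).nonempty
    exact ⟨x, hx, h x⟩

end Pool.Agent.Results.MP_38b588_al.LocallyRich
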