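import Pool.Agent.Helper321.VH.Main2

set_option autoImplicit false

namespace Pool.Agent.Results.MP_38b588_al.LocallySoluble

/-- For every word `w` and every infinite locally soluble group `G` (every finitely generated
subgroup is solvable), `G` belongs to the class `V^#` of `w` if and only if `w = 1` is a law
of `G`. -/
theorem result (n : ℕ) (w : FreeGroup (Fin n)) (G : Type*) [Group G] [Infinite G]
    (hG : ∀ S : Set G, S.Finite → Group.IsSolvable (Subgroup.closure S)) :
    (∀ X : Fin n → Set G, (∀ i, (X i).Infinite) →
        ∃ x : Fin n → G, (∀ i, x i ∈ X i) ∧ FreeGroup.lift x w = 1) ↔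
      ∀ x : Fin n → G, FreeGroup.lift x w = 1 := by
  constructor
  · intro hs
    exact Pool.Agent.Helper321.VH.locsol_case w hs inferInstance hG
  · intro h X hX
    choose x hx using fun i => (hX i).nonempty
    exact ⟨x, hx, h x⟩

end Pool.Agent.Results.MP_38b588_al.LocallySoluble
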